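import Mathlib
import Pool.Agent.Lib.MP_aa5e40_an.Stmt
import Pool.Agent.Lib.MP_aa5e40_an.Bridge

set_option autoImplicit false

universe u

open Pool.Agent.Lib.MP_aa5e40_an

/-- For every complex Banach algebra `A`, not necessarily unital, the left global dimension
equals the bidimension, as elements of `ℕ∞`. -/
theorem Pool.Agent.Results.MP_aa5e40_an.DgEqDb.result
    (A : Type u) [NonUnitalNormedRing A] [NormedSpace ℂ A] [IsScalarTower ℂ A A]
    [SMulCommClass ℂ A A] [CompleteSpace A] : St.dg A = St.db A := by
  rw [dg_eq, db_eq]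
  exact le_antisymm dg_le_db db_le_dg
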